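import Pool.Agent.H682_VS.Final

/-!
# A uniformly rotating vortex patch with a right-angle corner
-/

set_option autoImplicit false

open MeasureTheory Set Filter Topology

namespace Pool.Agent.Results.MP_539ca6_an.RightAngle

/-- The stream function `ψ_D = (1/2π) log|·| * 1_D` (the plane is `ℂ`). -/
noncomputable def psi (D : Set ℂ) (x : ℂ) : ℝ :=
  (1 / (2 * Real.pi)) * ∫ y in D, Real.log ‖x - y‖

/-- `D` is a V-state with angular velocity `Ω`: a nonempty bounded open set such that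
`ψ_D - (Ω/2)|x|²` is constant on each connected component of the boundary of `D`. -/
structure IsVState (D : Set ℂ) (Ω : ℝ) : Prop where
  isOpen : IsOpen D
  bounded : Bornology.IsBounded D
  nonempty : D.Nonempty
  const_on_components : ∀ x ∈ frontier D, ∀ y ∈ connectedComponentIn (frontier D) x,
    psi D y - Ω / 2 * ‖y‖ ^ 2 = psi D x - Ω / 2 * ‖x‖ ^ 2

/-- A `C¹` arc `γ : [0,1] → ℂ` (injective, continuously differentiable up to the end points, with
nowhere vanishing derivative) that ends at `p = γ 0`. -/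
structure IsArc (γ : ℝ → ℂ) (p : ℂ) : Prop where
  c1 : ContDiffOn ℝ 1 γ (Icc 0 1)
  inj : InjOn γ (Icc 0 1)
  reg : ∀ t ∈ Icc (0:ℝ) 1, derivWithin γ (Icc 0 1) t ≠ 0
  start : γ 0 = p

/-- `p` is a 90-degree corner of `D`: `p` is a boundary point; near `p` the boundary is the union of
two `C¹` arcs that end at `p` and have no other common point; their unit tangent vectors `v₁`, `v₂`
at `p` are orthogonal; and the right angle is measured through `D`: every ray from `p` that points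
strictly into the quadrant between `v₁` and `v₂` is inside `D` near `p`, and every ray that points
strictly out of this closed quadrant is outside the closure of `D` near `p`. -/
def IsRightCorner (D : Set ℂ) (p : ℂ) : Prop :=
  p ∈ frontier D ∧ ∃ (γ₁ γ₂ : ℝ → ℂ) (v₁ v₂ : ℂ), IsArc γ₁ p ∧ IsArc γ₂ p ∧
    γ₁ '' Icc 0 1 ∩ γ₂ '' Icc 0 1 = {p} ∧
    (∃ U ∈ 𝓝 p, frontier D ∩ U = (γ₁ '' Icc 0 1 ∪ γ₂ '' Icc 0 1) ∩ U) ∧
    ‖v₁‖ = 1 ∧ ‖v₂‖ = 1 ∧
    (∃ l₁ > (0:ℝ), derivWithin γ₁ (Icc 0 1) 0 = l₁ * v₁) ∧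
    (∃ l₂ > (0:ℝ), derivWithin γ₂ (Icc 0 1) 0 = l₂ * v₂) ∧
    (v₁ * (starRingEnd ℂ) v₂).re = 0 ∧
    (∀ a b : ℝ, 0 < a → 0 < b → ∀ᶠ t : ℝ in 𝓝[>] 0, p + t * (a * v₁ + b * v₂) ∈ D) ∧
    (∀ a b : ℝ, a < 0 ∨ b < 0 → ∀ᶠ t : ℝ in 𝓝[>] 0, p + t * (a * v₁ + b * v₂) ∉ closure D)

/-- There is a V-state whose boundary has a 90-degree corner. -/
theorem result : ∃ (D : Set ℂ) (Ω : ℝ) (p : ℂ), IsVState D Ω ∧ IsRightCorner D p := by
  obtain ⟨D, Ω, p, hV, hp, γ₁, γ₂, v₁, v₂, h1, h2, h3⟩ := Pool.Agent.H682_VS.t_final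
  exact ⟨D, Ω, p, ⟨hV.isOpen, hV.bounded, hV.nonempty, hV.const_on_components⟩, hp, γ₁, γ₂, v₁, v₂,
    ⟨h1.c1, h1.inj, h1.reg, h1.start⟩, ⟨h2.c1, h2.inj, h2.reg, h2.start⟩, h3⟩

end Pool.Agent.Results.MP_539ca6_an.RightAngle
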